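import Pool.Agent.X29.EV.FreeR

/-!
# Record gaps between primes near all coordinates of a random vector

Let `F(M) = log M (log₂ M)² log₄ M / (log₃ M)²`.  Let `V` be a random vector with `r` coordinates, on any probability space.
Nothing is assumed about independence, size, signs or smoothness; all that matters is the joint distribution modulo the
integers `q ≤ M ^ η`, `η > 0` arbitrarily small.

First part: `V` has integer coordinates, and `P(V ≡ ρ mod q) = q ^ (-r) + O*(M ^ (-η))` for all `q ≤ M ^ η` and all `ρ`.  Then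
with probability at least `M ^ (-η)` there is no prime within `κ F(M)` of any of the coordinates of `V`.

Second part: `V` has real coordinates, and the characteristic function of `V` is at most `M ^ (-η)` in absolute value at the
points `2 π h / q`, `q ≤ M ^ η`, `h` a non-zero vector of integers of absolute value at most `M ^ η`.  Then the conclusion is
the same.

The joint covering sieve for finite families is that of `Pool.Agent.Y961.JR` (helper961), starting repository; new are the
passage to random variables, the lower bound for the probability, and that no condition on the size of the coordinates is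
needed (`Pool.Agent.X29.EV`).
-/

set_option autoImplicit false

namespace Pool.Agent.Results.MP_b0c12c_nt.EquidistributedVectors

open MeasureTheory Filter

/-- `F(x) = log x (log log x)² log log log log x / (log log log x)²` -/
noncomputable def F (x : ℝ) : ℝ :=
  Real.log x * (Real.log (Real.log x)) ^ 2 * Real.log (Real.log (Real.log (Real.log x))) /
    (Real.log (Real.log (Real.log x))) ^ 2

theorem result (r : ℕ) (hr : 1 ≤ r) (η : ℝ) (h0 : 0 < η) (h1 : η ≤ 1) :
    (∃ κ : ℝ, 0 < κ ∧ ∀ᶠ M : ℝ in atTop, ∀ (Ω : Type) (_ : MeasurableSpace Ω) (μ : Measure Ω),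
      IsProbabilityMeasure μ → ∀ V : Ω → Fin r → ℤ, Measurable V →
      (∀ q : ℕ, 1 ≤ q → (q : ℝ) ≤ M ^ η → ∀ ρ : Fin r → ℤ,
        |μ.real {x | ∀ j, (q : ℤ) ∣ V x j - ρ j} - 1 / (q : ℝ) ^ r| ≤ M ^ (-η)) →
      M ^ (-η) ≤ μ.real {x | ∀ j, ∀ p : ℕ, p.Prime → κ * F M < |(p : ℝ) - V x j|}) ∧
    (∃ κ : ℝ, 0 < κ ∧ ∀ᶠ M : ℝ in atTop, ∀ (Ω : Type) (_ : MeasurableSpace Ω) (μ : Measure Ω),
      IsProbabilityMeasure μ → ∀ V : Ω → Fin r → ℝ, Measurable V →
      (∀ q : ℕ, 1 ≤ q → (q : ℝ) ≤ M ^ η → ∀ h : Fin r → ℤ, h ≠ 0 → (∀ j, |(h j : ℝ)| ≤ M ^ η) →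
        ‖∫ x, Complex.exp (((2 * Real.pi * ∑ j, (h j : ℝ) * (V x j / q) : ℝ) : ℂ) * Complex.I) ∂μ‖ ≤
          M ^ (-η)) →
      M ^ (-η) ≤ μ.real {x | ∀ j, ∀ p : ℕ, p.Prime → κ * F M < |(p : ℝ) - V x j|}) :=
  ⟨Pool.Agent.X29.EV.integersF r hr η h0 h1, Pool.Agent.X29.EV.realsF r hr η h0 h1⟩

end Pool.Agent.Results.MP_b0c12c_nt.EquidistributedVectors
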