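import Mathlib
import Pool.Agent.X145.S3.Final

set_option autoImplicit false

/-!
# Record prime gaps around all the values of an arbitrary family of polynomials

Let `f(Z) = log Z (log₂ Z)² log₄ Z / (log₃ Z)²` (iterated natural logarithms), the size of the largest gaps
between consecutive primes that are known to occur up to `Z`.

For EVERY finite family of admissible integer polynomials `F_1, …, F_m` in `n` variables there is `c > 0` such that
for all large `Z` every box of side `Z` contains an integer point `x` such that around each of the numbers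
`F_1(x), …, F_m(x)` all the integers at distance at most `c f(Z)` have a prime factor `≤ Z ^ (1/10)`. There is no
condition on the mutual position of the polynomials, and polynomials of different types may be mixed. Up to invertible
polynomial changes of variables (over `ℚ`) and up to constants (`F` and `K F + K'` are admissible simultaneously) the
admissible polynomials are

* `P + Q` with `P ≠ 0` of weight `D ≠ 0` and `Q` of weight `0` for some integer weights of the variables (of any
  sign), if `|D| = 1` or `Q` is not constant or `P` is squarefree. Examples: `B y ^ a + G` with arbitrary `B ≠ 0` and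
  nonconstant `G` not containing `y` (so all superelliptic equations); every polynomial which has an exponent vector
  outside the linear span of the other exponent vectors and at least one more nonconstant term; determinants, norm
  forms and all forms without repeated factors; products of linear polynomials in different variables;
* `F₀ + F₁ + F₂` with `F_i` of weight `i` for some integer weights, unless it is a square up to constants. Examples:
  all polynomials of degree at most two in ONE of the variables, and all polynomials of degree two, unless they are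
  squares up to constants;
* sums of three nonconstant polynomials in disjoint sets of variables.

Method. The record sieve (starting library) is carried over to points of `ℤ^n`, with exceptional values given by a
nonzero polynomial. It needs that for large primes `p` and nonexceptional `r` modulo `p` the polynomial `F - r` is
irreducible modulo `p` and has `p ^ (n-1) (1 + O(p ^ (-δ)))` zeros; then two different equations `F_i = r`, `F_j = s`
have `O(p ^ (n-2))` common solutions unless the two polynomials are proportional. Irreducibility and counts for the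
first two classes come from the action of the one-dimensional torus: `F - r` becomes a binomial or a quadratic
polynomial in one new variable over `ℤ[x]`, and Weil's bound for character sums is applied to its discriminant.
-/

namespace Pool.Agent.Results.MP_b0c12c_nt.FamiliesOfPolynomials

open MvPolynomial

/-- The record scale `f(Z) = log Z (log₂ Z)² log₄ Z / (log₃ Z)²` (iterated natural logarithms). -/
noncomputable def f (Z : ℝ) : ℝ :=
  Real.log Z * (Real.log (Real.log Z)) ^ 2 * Real.log (Real.log (Real.log (Real.log Z))) /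
    (Real.log (Real.log (Real.log Z))) ^ 2

/-- Every integer at distance at most `c f(Z)` from `N` has a prime factor `p ≤ Z ^ (1/10)`. -/
def Isolated (c : ℝ) (Z : ℕ) (N : ℤ) : Prop :=
  ∀ k : ℤ, |(k : ℝ) - (N : ℝ)| ≤ c * f Z →
    ∃ p : ℕ, p.Prime ∧ (p : ℝ) ≤ (Z : ℝ) ^ (1 / 10 : ℝ) ∧ (p : ℤ) ∣ k

variable {n : ℕ}

/-- `F` is homogeneous of weight `D` if the variable `x_i` has weight `w i`. -/
def Weight (w : Fin n → ℤ) (D : ℤ) (F : MvPolynomial (Fin n) ℤ) : Prop :=
  ∀ e ∈ F.support, ∑ i, w i * (e i : ℤ) = D

/-- `F = P + Q`, where for some integer weights `P ≠ 0` has weight `D ≠ 0` and `Q` has weight `0`, and moreover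
`|D| = 1` or `Q` is not constant or `P` is squarefree over `ℚ`. -/
def TwoWeights (F : MvPolynomial (Fin n) ℤ) : Prop :=
  ∃ (w : Fin n → ℤ) (D : ℤ) (P Q : MvPolynomial (Fin n) ℤ), D ≠ 0 ∧ P ≠ 0 ∧ Weight w D P ∧ Weight w 0 Q ∧
    (|D| = 1 ∨ (∀ c, Q ≠ C c) ∨ Squarefree (map (Int.castRingHom ℚ) P)) ∧ F = P + Q

/-- `F = F₀ + F₁ + F₂`, where for some integer weights `F_i` has weight `i`, not both `F₁`, `F₂` are `0`, and
`K F + K'` is not a square for any integers `K ≠ 0`, `K'`. -/
def ThreeWeights (F : MvPolynomial (Fin n) ℤ) : Prop :=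
  ∃ (w : Fin n → ℤ) (F₀ F₁ F₂ : MvPolynomial (Fin n) ℤ), Weight w 0 F₀ ∧ Weight w 1 F₁ ∧ Weight w 2 F₂ ∧
    (F₁ ≠ 0 ∨ F₂ ≠ 0) ∧ F = F₀ + F₁ + F₂ ∧
    ∀ K K' : ℤ, ∀ l : MvPolynomial (Fin n) ℤ, K ≠ 0 → C K * F + C K' ≠ l ^ 2

/-- `F` is the sum of three nonconstant polynomials in disjoint sets of variables. -/
def ThreeSum (F : MvPolynomial (Fin n) ℤ) : Prop :=
  ∃ (b : Fin n → Fin 3) (g : Fin 3 → MvPolynomial (Fin n) ℤ), (∀ i, ∀ v ∈ (g i).vars, b v = i) ∧
    (∀ i c, g i ≠ C c) ∧ F = g 0 + g 1 + g 2

/-- `K F + K' = G(φ_1, …, φ_n)` for some integers `K ≠ 0`, `K'`, some `G` of one of the three types, and polynomials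
`φ_1, …, φ_n` which generate the algebra `ℚ[x_1, …, x_n]` (an invertible polynomial change of variables over `ℚ`). -/
def Admissible (F : MvPolynomial (Fin n) ℤ) : Prop :=
  ∃ (K K' : ℤ) (φ : Fin n → MvPolynomial (Fin n) ℤ) (G : MvPolynomial (Fin n) ℤ), K ≠ 0 ∧
    Algebra.adjoin ℚ (Set.range fun i => map (Int.castRingHom ℚ) (φ i)) = ⊤ ∧
    (TwoWeights G ∨ ThreeWeights G ∨ ThreeSum G) ∧ C K * F + C K' = aeval φ G

/-- **Record gaps around all the values of a family of admissible polynomials.** -/
theorem result {m : ℕ} (F : Fin m → MvPolynomial (Fin n) ℤ) (hF : ∀ j, Admissible (F j)) :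
    ∃ c : ℝ, 0 < c ∧ ∃ Z₀ : ℝ, ∀ Z : ℕ, Z₀ ≤ Z → ∀ M : Fin n → ℤ, ∃ x : Fin n → ℤ,
      (∀ i, M i < x i ∧ x i ≤ M i + Z) ∧ ∀ j, Isolated c Z (eval x (F j)) := by
  have hgood : ∀ j, Pool.Agent.X145.S3.Good (F j) := by
    intro j
    obtain ⟨K, K', φ, G, hK, hφ, hG, h⟩ := hF j
    refine Pool.Agent.X145.S3.good_change (F j) G φ hφ K K' hK ?_ h
    rcases hG with ⟨w, D, P, Q, hD, hP0, hP, hQ, hc, rfl⟩ | ⟨w, F₀, F₁, F₂, h0, h1, h2, h3, rfl, hsq⟩ |
      ⟨b, g, hb, hg, rfl⟩
    · exact Pool.Agent.X145.S3.good_tw w D P Q hD hP0 hP hQ hc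
    · exact Pool.Agent.X145.S3.good_thw w F₀ F₁ F₂ h0 h1 h2 h3 hsq
    · exact Pool.Agent.X145.S3.good_three b g hb hg
  obtain ⟨c, hc, Z₀, h⟩ := Pool.Agent.X145.S3.family n F hgood fun j c => (hgood j).nonconst c
  refine ⟨c, hc, Z₀, fun Z hZ M => ?_⟩
  obtain ⟨x, hx1, hx2⟩ := h Z hZ M
  exact ⟨x, hx1, fun j k hk => hx2 j k hk⟩

end Pool.Agent.Results.MP_b0c12c_nt.FamiliesOfPolynomials
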