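import Mathlib
import Pool.Agent.X2.GeoMean

/-!
# Record prime gaps around the geometric means of the elements of two arbitrary dense sets

No hypothesis is assumed.  Let `0 < γ < 1` and `δ > 0`.  There is `κ > 0` such that for all large `N` and ARBITRARY
sets `A`, `B` of integers in `(N, 2 N]` with `|A| |B| ≥ N ^ (max (2 γ) (2 - 2 γ) + δ)` there are `a ∈ A`, `b ∈ B`
such that there is no prime at a distance of at most `κ log N (log₂ N)² log₄ N / (log₃ N)²` from `(a b) ^ γ`.

For `γ = 1 / 2` this concerns the geometric means `√(a b)`, and the condition is `|A| |B| ≥ N ^ (1 + δ)`: it allows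
very thin sets, of size `N ^ (1 / 2 + δ)`, without any structure.

The bilinear sums over `A × B` are estimated by the inequality of Cauchy and the inequality of Kusmin and Landau;
the criterion for record gaps around the terms of a sequence with small exponential sums is the one of the starting
library (`Pool.Agent.TH915.PW.crit_scaled`).
-/

set_option autoImplicit false

namespace Pool.Agent.Results.MP_b0c12c_nt.GeometricMeans

open Finset

/-- the record scale `log x (log log x)² log log log log x / (log log log x)²` -/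
noncomputable def record (x : ℝ) : ℝ :=
  Real.log x * (Real.log (Real.log x)) ^ 2 * Real.log (Real.log (Real.log (Real.log x))) /
    (Real.log (Real.log (Real.log x))) ^ 2

/-- **Record prime gaps around the powers `(a b) ^ γ` of the products of the elements of two arbitrary dense sets.** -/
theorem result : ∀ γ δ : ℝ, 0 < γ → γ < 1 → 0 < δ → ∃ κ : ℝ, 0 < κ ∧ ∃ N₀ : ℕ, ∀ N : ℕ, N₀ ≤ N →
    ∀ A B : Finset ℕ, A ⊆ Ioc N (2 * N) → B ⊆ Ioc N (2 * N) →
    (N : ℝ) ^ (max (2 * γ) (2 - 2 * γ) + δ) ≤ (A.card : ℝ) * B.card →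
    ∃ a ∈ A, ∃ b ∈ B, ∀ q : ℕ, q.Prime → κ * record N < |(q : ℝ) - ((a : ℝ) * b) ^ γ| := by
  intro γ δ h0 h1 hδ
  obtain ⟨κ, hκ, h⟩ := Pool.Agent.X2.GeoMean.main h0 h1 hδ
  obtain ⟨N₀, hN⟩ := Filter.eventually_atTop.1 h
  exact ⟨κ, hκ, N₀, hN⟩

end Pool.Agent.Results.MP_b0c12c_nt.GeometricMeans
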